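import Mathlib

/-! # Greedy paths / counting lemma (pure)

Events `A i x` (`i` = time, `x : ℤ` = place) with `μ (⋂ s ∈ S, A s) ≤ p ^ |S|` for every finite
set `S` of space-time points.  Paths `γ : ℕ → ℤ` of time length `N` and total variation
(including `|γ 0|`) at most `R`.  Then the maximal number of hits of a path has mean
`≤ C (N p + √(N R p))`, and `μ (∃ path with ≥ k hits) ≤ (2 e² N (R + 2k) p / k²) ^ k`. -/

namespace Greedy70

open MeasureTheory Finset

/-- integer vectors of `ℓ¹` norm at most `R` -/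
noncomputable def Yset (k R : ℕ) : Finset (Fin k → ℤ) :=
  (Fintype.piFinset fun _ => Finset.Icc (-(R:ℤ)) R).filter fun y => ∑ j, (y j).natAbs ≤ R

lemma geom_abs_eq (R : ℕ) (z : ℝ) :
    ∑ y ∈ Finset.Icc (-(R:ℤ)) R, z ^ y.natAbs = 2 * ∑ j ∈ range (R+1), z ^ j - 1 := by
  induction R with
  | zero => simp; norm_num
  | succ R ih =>
    have h1 : Finset.Icc (-((R+1:ℕ):ℤ)) ((R+1:ℕ):ℤ)
        = insert (((R+1:ℕ):ℤ)) (insert (-((R+1:ℕ):ℤ)) (Finset.Icc (-(R:ℤ)) R)) := by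
      ext x
      simp only [Finset.mem_Icc, Finset.mem_insert]
      push_cast
      omega
    rw [h1, Finset.sum_insert, Finset.sum_insert, ih, Finset.sum_range_succ _ (R+1)]
    · have e1 : (((R+1:ℕ):ℤ)).natAbs = R+1 := Int.natAbs_natCast _
      have e2 : (-((R+1:ℕ):ℤ)).natAbs = R+1 := by rw [Int.natAbs_neg]; exact Int.natAbs_natCast _
      rw [e1, e2]; ring
    · simp only [Finset.mem_Icc]; push_cast; omega
    · simp only [Finset.mem_Icc, Finset.mem_insert]; push_cast; omega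

lemma geom_abs (R : ℕ) (z : ℝ) (hz0 : 0 ≤ z) (hz1 : z < 1) :
    ∑ y ∈ Finset.Icc (-(R:ℤ)) R, z ^ y.natAbs ≤ 2 / (1 - z) := by
  rw [geom_abs_eq]
  have h : (1 - z) * ∑ j ∈ range (R+1), z ^ j = 1 - z ^ (R+1) := mul_neg_geom_sum z (R+1)
  have hz : 0 < 1 - z := by linarith
  have h2 : ∑ j ∈ range (R+1), z ^ j ≤ 1 / (1 - z) := by
    rw [le_div_iff₀ hz, mul_comm, h]
    have := pow_nonneg hz0 (R+1)
    linarith
  have : 2 / (1 - z) = 2 * (1 / (1 - z)) := by ring
  linarith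

lemma card_Yset (k R : ℕ) (hk : 1 ≤ k) :
    ((Yset k R).card : ℝ) ≤ (2 * Real.exp 1 * (R + 2 * k) / k) ^ k := by
  have hk0 : (0:ℝ) < k := by exact_mod_cast hk
  have hR0 : (0:ℝ) ≤ R := by positivity
  set z : ℝ := (R + 1) / (R + 1 + k) with hz
  have hden : (0:ℝ) < R + 1 + k := by positivity
  have hz0 : 0 < z := by positivity
  have hz1 : z < 1 := by rw [hz, div_lt_one hden]; linarith
  have h1z : 1 - z = k / (R + 1 + k) := by rw [hz]; field_simp; ring
  have hcard : ((Yset k R).card : ℝ) ≤ ∑ y ∈ Yset k R, (z⁻¹) ^ R * ∏ j, z ^ (y j).natAbs := by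
    rw [Finset.card_eq_sum_ones, Nat.cast_sum]
    apply Finset.sum_le_sum
    intro y hy
    have hyR : ∑ j, (y j).natAbs ≤ R := (Finset.mem_filter.mp hy).2
    rw [Finset.prod_pow_eq_pow_sum, Nat.cast_one]
    have h2 : z ^ R ≤ z ^ (∑ j, (y j).natAbs) := pow_le_pow_of_le_one hz0.le hz1.le hyR
    have h3 : (z⁻¹) ^ R * z ^ R = 1 := by rw [← mul_pow, inv_mul_cancel₀ hz0.ne', one_pow]
    calc (1:ℝ) = (z⁻¹) ^ R * z ^ R := h3.symm
      _ ≤ _ := by gcongr
  have hsum : ∑ y ∈ Yset k R, (z⁻¹) ^ R * ∏ j, z ^ (y j).natAbs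
      ≤ (z⁻¹) ^ R * (2 / (1 - z)) ^ k := by
    rw [← Finset.mul_sum]
    have h4 : ∑ y ∈ Yset k R, ∏ j, z ^ (y j).natAbs
        ≤ ∑ y ∈ Fintype.piFinset (fun _ : Fin k => Finset.Icc (-(R:ℤ)) R),
            ∏ j, z ^ (y j).natAbs := by
      apply Finset.sum_le_sum_of_subset_of_nonneg (Finset.filter_subset _ _)
      intro y _ _
      positivity
    have h5 : ∑ y ∈ Fintype.piFinset (fun _ : Fin k => Finset.Icc (-(R:ℤ)) R),
            ∏ j, z ^ (y j).natAbs = ∏ _j : Fin k, ∑ y ∈ Finset.Icc (-(R:ℤ)) R, z ^ y.natAbs := by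
      rw [Finset.prod_univ_sum]
    rw [h5] at h4
    have h6 : ∏ _j : Fin k, ∑ y ∈ Finset.Icc (-(R:ℤ)) R, z ^ y.natAbs ≤ (2 / (1 - z)) ^ k := by
      rw [Finset.prod_const, Finset.card_univ, Fintype.card_fin]
      apply pow_le_pow_left₀ (by positivity) (geom_abs R z hz0.le hz1)
    gcongr
    exact h4.trans h6
  have hexp : (z⁻¹) ^ R ≤ (Real.exp 1) ^ k := by
    have e1 : z⁻¹ = 1 + k / (R + 1) := by rw [hz]; field_simp
    have e2 : z⁻¹ ≤ Real.exp (k / (R + 1)) := by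
      rw [e1, add_comm]; exact Real.add_one_le_exp _
    calc (z⁻¹) ^ R ≤ (Real.exp (k / (R + 1))) ^ R := by gcongr
      _ = Real.exp (R * (k / (R + 1))) := by rw [← Real.exp_nat_mul]
      _ ≤ Real.exp (k * 1) := by
          apply Real.exp_le_exp.mpr
          rw [mul_one, ← mul_div_assoc, div_le_iff₀ (by positivity)]
          nlinarith
      _ = (Real.exp 1) ^ k := by rw [← Real.exp_nat_mul]
  have h7 : 2 / (1 - z) ≤ 2 * (R + 2 * k) / k := by
    have hk1 : (1:ℝ) ≤ k := by exact_mod_cast hk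
    rw [h1z, div_div_eq_mul_div]
    apply div_le_div_of_nonneg_right _ hk0.le
    linarith
  have h1z0 : 0 < 1 - z := by linarith
  calc ((Yset k R).card : ℝ) ≤ (z⁻¹) ^ R * (2 / (1 - z)) ^ k := hcard.trans hsum
    _ ≤ (Real.exp 1) ^ k * (2 * (R + 2 * k) / k) ^ k := by gcongr
    _ = (2 * Real.exp 1 * (R + 2 * k) / k) ^ k := by rw [← mul_pow]; congr 1; ring

lemma choose_bound (N k : ℕ) (hk : 1 ≤ k) :
    ((N.choose k : ℕ) : ℝ) ≤ (Real.exp 1 * N / k) ^ k := by
  have hk0 : (0:ℝ) < k := by exact_mod_cast hk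
  have h1 : ((N.choose k : ℕ) : ℝ) ≤ (N:ℝ) ^ k / (k.factorial : ℝ) := Nat.choose_le_pow_div k N
  have h2 : (k:ℝ) ^ k / (k.factorial : ℝ) ≤ Real.exp k :=
    Real.pow_div_factorial_le_exp (k:ℝ) hk0.le k
  have hf : (0:ℝ) < (k.factorial : ℝ) := by positivity
  have h3 : (1:ℝ) / (k.factorial : ℝ) ≤ (Real.exp 1 / k) ^ k := by
    rw [div_pow, ← Real.exp_nat_mul, mul_one, div_le_div_iff₀ hf (by positivity), one_mul]
    rw [div_le_iff₀ hf] at h2
    exact h2
  calc ((N.choose k : ℕ) : ℝ) ≤ (N:ℝ) ^ k * (1 / (k.factorial : ℝ)) := by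
        rw [mul_one_div]; exact h1
    _ ≤ (N:ℝ) ^ k * (Real.exp 1 / k) ^ k := by gcongr
    _ = (Real.exp 1 * N / k) ^ k := by rw [← mul_pow]; congr 1; ring

/-! ## Paths, hits and the cover -/

/-- total variation of a path on `{0,…,N-1}`, including `|γ 0|` -/
def TV (N : ℕ) (γ : ℕ → ℤ) : ℕ := (γ 0).natAbs + ∑ i ∈ range (N-1), (γ (i+1) - γ i).natAbs

/-- partial variation -/
def PV (γ : ℕ → ℤ) (n : ℕ) : ℕ := (γ 0).natAbs + ∑ i ∈ range n, (γ (i+1) - γ i).natAbs

lemma PV_mono (γ : ℕ → ℤ) : Monotone (PV γ) := by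
  apply monotone_nat_of_le_succ
  intro n
  unfold PV
  rw [Finset.sum_range_succ]
  omega

lemma PV_incr (γ : ℕ → ℤ) {i j : ℕ} (hij : i ≤ j) : (γ j - γ i).natAbs + PV γ i ≤ PV γ j := by
  induction j, hij using Nat.le_induction with
  | base => simp
  | succ j _ ih =>
    have h : PV γ (j+1) = PV γ j + (γ (j+1) - γ j).natAbs := by
      unfold PV; rw [Finset.sum_range_succ]; omega
    rw [h]
    have h2 : (γ (j+1) - γ i).natAbs ≤ (γ (j+1) - γ j).natAbs + (γ j - γ i).natAbs := by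
      have : γ (j+1) - γ i = (γ (j+1) - γ j) + (γ j - γ i) := by ring
      rw [this]; exact Int.natAbs_add_le _ _
    omega

lemma PV_abs (γ : ℕ → ℤ) (i : ℕ) : (γ i).natAbs ≤ PV γ i := by
  have h := PV_incr γ (Nat.zero_le i)
  have h0 : PV γ 0 = (γ 0).natAbs := by simp [PV]
  have h2 : (γ i).natAbs ≤ (γ i - γ 0).natAbs + (γ 0).natAbs := by
    have : γ i = (γ i - γ 0) + γ 0 := by ring
    calc (γ i).natAbs = ((γ i - γ 0) + γ 0).natAbs := by rw [← this]
      _ ≤ _ := Int.natAbs_add_le _ _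
  omega

/-- position after `j` increments (with `y 0` the first position) -/
def pos {k : ℕ} (y : Fin k → ℤ) (j : ℕ) : ℤ :=
  ∑ l ∈ range (j+1), if h : l < k then y ⟨l, h⟩ else 0

/-- the hit times: `j`-th element of `S` -/
noncomputable def tm (S : Finset ℕ) (j : ℕ) : ℕ := Nat.nth (fun n => n ∈ S) j

/-- the space-time points of a chain -/
noncomputable def pts (S : Finset ℕ) {k : ℕ} (y : Fin k → ℤ) : Finset (ℕ × ℤ) :=
  (range k).image fun j => (tm S j, pos y j)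

lemma tm_mem (S : Finset ℕ) {j : ℕ} (hj : j < S.card) : tm S j ∈ S := by
  have hf : {n | n ∈ S}.Finite := S.finite_toSet
  have h1 : j < hf.toFinset.card := by
    have : hf.toFinset = S := by ext x; simp
    rw [this]; exact hj
  exact Nat.nth_mem_of_lt_card hf h1

lemma tm_lt (S : Finset ℕ) {i j : ℕ} (hij : i < j) (hj : j < S.card) : tm S i < tm S j := by
  apply Nat.nth_lt_nth' hij
  intro hf'
  have : hf'.toFinset = S := by ext x; simp
  rw [this]; exact hj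

lemma pts_card (S : Finset ℕ) {k : ℕ} (y : Fin k → ℤ) (hS : S.card = k) : (pts S y).card = k := by
  unfold pts
  rw [Finset.card_image_of_injOn, Finset.card_range]
  intro i hi j hj hij
  simp only [Finset.coe_range, Set.mem_Iio] at hi hj
  have h1 : tm S i = tm S j := congrArg Prod.fst hij
  rcases lt_trichotomy i j with h | h | h
  · have := tm_lt S h (by omega); omega
  · exact h
  · have := tm_lt S h (by omega); omega

/-- increments of `γ` along the hit times -/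
noncomputable def incr (γ : ℕ → ℤ) (S : Finset ℕ) (k : ℕ) : Fin k → ℤ :=
  fun j => γ (tm S j) - (if (j:ℕ) = 0 then 0 else γ (tm S (j-1)))

lemma pos_incr (γ : ℕ → ℤ) (S : Finset ℕ) (k : ℕ) {j : ℕ} (hj : j < k) :
    pos (incr γ S k) j = γ (tm S j) := by
  induction j with
  | zero => simp [pos, incr, hj]
  | succ j ih =>
    have h1 : pos (incr γ S k) (j+1)
        = pos (incr γ S k) j + (if h : j+1 < k then incr γ S k ⟨j+1, h⟩ else 0) := by
      unfold pos; rw [Finset.sum_range_succ _ (j+1)]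
    rw [h1, ih (by omega), dif_pos hj]
    simp [incr]

lemma incr_sum (γ : ℕ → ℤ) (S : Finset ℕ) (k : ℕ) (hS : S.card = k) (m : ℕ) (hm : m < k) :
    ∑ l ∈ range (m+1), (if h : l < k then (incr γ S k ⟨l, h⟩).natAbs else 0) ≤ PV γ (tm S m) := by
  induction m with
  | zero =>
    simp only [zero_add, Finset.sum_range_one, hm, dif_pos, incr, if_true, sub_zero]
    exact PV_abs γ _
  | succ m ih =>
    rw [Finset.sum_range_succ]
    have h1 := ih (by omega)
    have h2 : tm S m ≤ tm S (m+1) := (tm_lt S (Nat.lt_succ_self m) (by omega)).le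
    have h3 := PV_incr γ h2
    rw [dif_pos hm]
    have h4 : incr γ S k ⟨m+1, hm⟩ = γ (tm S (m+1)) - γ (tm S m) := by simp [incr]
    rw [h4]
    omega

lemma incr_mem (γ : ℕ → ℤ) (S : Finset ℕ) (N k R : ℕ) (hk : 1 ≤ k) (hS : S.card = k)
    (hSN : S ⊆ range N) (hγ : TV N γ ≤ R) : incr γ S k ∈ Yset k R := by
  have hsum : ∑ j, (incr γ S k j).natAbs ≤ R := by
    have h1 := incr_sum γ S k hS (k-1) (by omega)
    rw [Nat.sub_add_cancel hk] at h1
    have h2 : ∑ l ∈ range k, (if h : l < k then (incr γ S k ⟨l, h⟩).natAbs else 0)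
        = ∑ j, (incr γ S k j).natAbs := by
      rw [← Fin.sum_univ_eq_sum_range (fun l => if h : l < k then (incr γ S k ⟨l, h⟩).natAbs else 0)]
      apply Finset.sum_congr rfl
      intro j _
      simp
    have h3 : tm S (k-1) ≤ N-1 := by
      have := hSN (tm_mem S (j := k-1) (by omega))
      rw [Finset.mem_range] at this
      omega
    have h4 : PV γ (tm S (k-1)) ≤ PV γ (N-1) := PV_mono γ h3
    have h5 : PV γ (N-1) = TV N γ := rfl
    omega
  rw [Yset, Finset.mem_filter]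
  refine ⟨?_, hsum⟩
  rw [Fintype.mem_piFinset]
  intro j
  have : (incr γ S k j).natAbs ≤ ∑ j, (incr γ S k j).natAbs :=
    Finset.single_le_sum (f := fun j => (incr γ S k j).natAbs) (fun _ _ => Nat.zero_le _)
      (Finset.mem_univ j)
  rw [Finset.mem_Icc]
  omega

variable {Ω : Type*}

open Classical in
/-- number of hits of the path `γ` in the environment `ω` -/
noncomputable def hits (A : ℕ → ℤ → Set Ω) (N : ℕ) (γ : ℕ → ℤ) (ω : Ω) : ℕ :=
  ((range N).filter fun i => ω ∈ A i (γ i)).card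

/-- the union over all chains of `k` space time points -/
def U (A : ℕ → ℤ → Set Ω) (N R k : ℕ) : Set Ω :=
  ⋃ S ∈ powersetCard k (range N), ⋃ y ∈ Yset k R, ⋂ s ∈ pts S y, A s.1 s.2

lemma cover (A : ℕ → ℤ → Set Ω) (N R k : ℕ) (hk : 1 ≤ k) (γ : ℕ → ℤ) (hγ : TV N γ ≤ R) (ω : Ω)
    (h : k ≤ hits A N γ ω) : ω ∈ U A N R k := by
  classical
  unfold hits at h
  obtain ⟨S, hSsub, hScard⟩ := Finset.exists_subset_card_eq h
  have hSN : S ⊆ range N := hSsub.trans (Finset.filter_subset _ _)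
  unfold U
  simp only [Set.mem_iUnion, Set.mem_iInter]
  refine ⟨S, Finset.mem_powersetCard.mpr ⟨hSN, hScard⟩, incr γ S k,
    incr_mem γ S N k R hk hScard hSN hγ, ?_⟩
  intro s hs
  unfold pts at hs
  rw [Finset.mem_image] at hs
  obtain ⟨j, hj, rfl⟩ := hs
  rw [Finset.mem_range] at hj
  simp only
  rw [pos_incr γ S k hj]
  have := hSsub (tm_mem S (j := j) (by omega))
  rw [Finset.mem_filter] at this
  convert this.2

/-! ## Probability -/

variable [MeasurableSpace Ω] (μ : Measure Ω) [IsProbabilityMeasure μ]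

lemma U_meas (A : ℕ → ℤ → Set Ω) (hA : ∀ i x, MeasurableSet (A i x)) (N R k : ℕ) :
    MeasurableSet (U A N R k) := by
  unfold U
  apply Finset.measurableSet_biUnion
  intro S _
  apply Finset.measurableSet_biUnion
  intro y _
  apply Finset.measurableSet_biInter
  intro s _
  exact hA _ _

omit [IsProbabilityMeasure μ] in
theorem prob_U (A : ℕ → ℤ → Set Ω) (p : ℝ) (hp : 0 ≤ p)
    (hAp : ∀ S : Finset (ℕ × ℤ), μ.real (⋂ s ∈ S, A s.1 s.2) ≤ p ^ S.card)
    (N R k : ℕ) (hk : 1 ≤ k) :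
    μ.real (U A N R k) ≤ (2 * Real.exp 1 ^ 2 * N * (R + 2 * k) * p / k ^ 2) ^ k := by
  have hk0 : (0:ℝ) < k := by exact_mod_cast hk
  have h1 : μ.real (U A N R k) ≤ ∑ S ∈ powersetCard k (range N), ∑ y ∈ Yset k R, p ^ k := by
    unfold U
    refine (measureReal_biUnion_finset_le _ _).trans ?_
    apply Finset.sum_le_sum
    intro S hS
    refine (measureReal_biUnion_finset_le _ _).trans ?_
    apply Finset.sum_le_sum
    intro y _
    have := hAp (pts S y)
    rwa [pts_card S y (Finset.mem_powersetCard.mp hS).2] at this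
  have h2 : ∑ S ∈ powersetCard k (range N), ∑ y ∈ Yset k R, p ^ k
      = (N.choose k : ℕ) * ((Yset k R).card : ℝ) * p ^ k := by
    rw [Finset.sum_const, Finset.sum_const, Finset.card_powersetCard, Finset.card_range]
    simp only [nsmul_eq_mul]
    ring
  rw [h2] at h1
  refine h1.trans ?_
  have h3 := choose_bound N k hk
  have h4 := card_Yset k R hk
  calc ((N.choose k : ℕ) : ℝ) * ((Yset k R).card : ℝ) * p ^ k
      ≤ (Real.exp 1 * N / k) ^ k * (2 * Real.exp 1 * (R + 2 * k) / k) ^ k * p ^ k := by gcongr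
    _ = (2 * Real.exp 1 ^ 2 * N * (R + 2 * k) * p / k ^ 2) ^ k := by
        rw [← mul_pow, ← mul_pow]; congr 1; field_simp

/-- the size of the maximal number of hits -/
noncomputable def M0 (N R : ℕ) (p : ℝ) : ℝ := N * p + Real.sqrt (N * R * p)

lemma M0_nonneg (N R : ℕ) (p : ℝ) (hp : 0 ≤ p) : 0 ≤ M0 N R p := by unfold M0; positivity

lemma two_exp_sq : 2 * Real.exp 1 ^ 2 ≤ 15 := by
  have h := Real.exp_one_lt_d9
  have h0 := Real.exp_pos 1
  nlinarith

/-- for `k ≥ 64 M0` the basis of the power is at most `31 M0`, and at most `1/2` -/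
lemma base_le (N R k : ℕ) (p : ℝ) (hp : 0 ≤ p) (hk : 1 ≤ k) (hkM : 64 * M0 N R p ≤ k) :
    2 * Real.exp 1 ^ 2 * N * (R + 2 * k) * p / k ^ 2 ≤ 31 * M0 N R p ∧
    2 * Real.exp 1 ^ 2 * N * (R + 2 * k) * p / k ^ 2 ≤ 1 / 2 := by
  set M := M0 N R p with hM
  have hM0 : 0 ≤ M := M0_nonneg N R p hp
  have hk1 : (1:ℝ) ≤ k := by exact_mod_cast hk
  have hk0 : (0:ℝ) < k := by linarith
  have hNp : 0 ≤ (N:ℝ) * p := by positivity
  have hNRp : 0 ≤ (N:ℝ) * R * p := by positivity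
  have h1 : (N:ℝ) * p ≤ M := by
    rw [hM]; unfold M0; have := Real.sqrt_nonneg ((N:ℝ) * R * p); linarith
  have h2 : (N:ℝ) * R * p ≤ M ^ 2 := by
    have e : Real.sqrt ((N:ℝ) * R * p) ≤ M := by rw [hM]; unfold M0; linarith
    calc (N:ℝ) * R * p = Real.sqrt ((N:ℝ) * R * p) ^ 2 := (Real.sq_sqrt hNRp).symm
      _ ≤ M ^ 2 := by gcongr
  have h3 : 2 * Real.exp 1 ^ 2 * N * (R + 2 * k) * p / k ^ 2 ≤ 15 * (M ^ 2 + 2 * k * M) / k ^ 2 := by
    apply div_le_div_of_nonneg_right _ (by positivity)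
    have h4 : 2 * Real.exp 1 ^ 2 * N * (R + 2 * k) * p
        = 2 * Real.exp 1 ^ 2 * (N * R * p + 2 * k * (N * p)) := by ring
    rw [h4]
    have h5 : 0 ≤ (N:ℝ) * R * p + 2 * k * (N * p) := by positivity
    calc 2 * Real.exp 1 ^ 2 * ((N:ℝ) * R * p + 2 * k * (N * p))
        ≤ 15 * ((N:ℝ) * R * p + 2 * k * (N * p)) :=
          mul_le_mul_of_nonneg_right two_exp_sq h5
      _ ≤ 15 * (M ^ 2 + 2 * k * M) := by gcongr
  have hk2 : (0:ℝ) < (k:ℝ) ^ 2 := by positivity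
  have h6 : M ^ 2 ≤ k * M / 64 := by nlinarith
  constructor
  · refine h3.trans ?_
    rw [div_le_iff₀ hk2]
    have h7 : (k:ℝ) * M ≤ k ^ 2 * M := by nlinarith
    nlinarith
  · refine h3.trans ?_
    rw [div_le_iff₀ hk2]
    have h8 : (k:ℝ) * M ≤ k * (k / 64) := by
      apply mul_le_mul_of_nonneg_left _ hk0.le
      linarith
    nlinarith

omit [IsProbabilityMeasure μ] in
/-- (G1) deviation form -/
theorem prob_U_half (A : ℕ → ℤ → Set Ω) (p : ℝ) (hp : 0 ≤ p)
    (hAp : ∀ S : Finset (ℕ × ℤ), μ.real (⋂ s ∈ S, A s.1 s.2) ≤ p ^ S.card)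
    (N R k : ℕ) (hk : 1 ≤ k) (hkM : 64 * M0 N R p ≤ k) :
    μ.real (U A N R k) ≤ (1 / 2) ^ k := by
  refine (prob_U μ A p hp hAp N R k hk).trans ?_
  apply pow_le_pow_left₀ (by positivity) (base_le N R k p hp hk hkM).2

lemma prob_U_sum (A : ℕ → ℤ → Set Ω) (p : ℝ) (hp : 0 ≤ p)
    (hAp : ∀ S : Finset (ℕ × ℤ), μ.real (⋂ s ∈ S, A s.1 s.2) ≤ p ^ S.card)
    (N R k : ℕ) (hk : 1 ≤ k) :
    μ.real (U A N R k) ≤ (if (k:ℝ) < 64 * M0 N R p then 1 else 0)
      + 31 * M0 N R p * (1 / 2) ^ (k - 1) := by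
  have hM0 : 0 ≤ M0 N R p := M0_nonneg N R p hp
  split_ifs with h
  · have := measureReal_le_one (μ := μ) (s := U A N R k)
    have h2 : 0 ≤ 31 * M0 N R p * (1 / 2 : ℝ) ^ (k - 1) := by positivity
    linarith
  · push Not at h
    obtain ⟨h1, h2⟩ := base_le N R k p hp hk h
    refine (prob_U μ A p hp hAp N R k hk).trans ?_
    rw [zero_add]
    set b := 2 * Real.exp 1 ^ 2 * N * (R + 2 * k) * p / k ^ 2 with hb
    have hb0 : 0 ≤ b := by positivity
    obtain ⟨m, rfl⟩ : ∃ m, k = m + 1 := ⟨k - 1, by omega⟩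
    rw [pow_succ', Nat.add_sub_cancel]
    gcongr

lemma sum_U (A : ℕ → ℤ → Set Ω) (p : ℝ) (hp : 0 ≤ p)
    (hAp : ∀ S : Finset (ℕ × ℤ), μ.real (⋂ s ∈ S, A s.1 s.2) ≤ p ^ S.card)
    (N R : ℕ) :
    ∑ k ∈ Finset.Icc 1 N, μ.real (U A N R k) ≤ 126 * M0 N R p := by
  have hM0 : 0 ≤ M0 N R p := M0_nonneg N R p hp
  have h1 : ∑ k ∈ Finset.Icc 1 N, μ.real (U A N R k)
      ≤ ∑ k ∈ Finset.Icc 1 N, ((if (k:ℝ) < 64 * M0 N R p then (1:ℝ) else 0)
        + 31 * M0 N R p * (1 / 2) ^ (k - 1)) := by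
    apply Finset.sum_le_sum
    intro k hk
    exact prob_U_sum μ A p hp hAp N R k (Finset.mem_Icc.mp hk).1
  rw [Finset.sum_add_distrib] at h1
  have h2 : ∑ k ∈ Finset.Icc 1 N, (if (k:ℝ) < 64 * M0 N R p then (1:ℝ) else 0)
      ≤ 64 * M0 N R p := by
    rw [← Finset.sum_filter, Finset.sum_const, nsmul_eq_mul, mul_one]
    have h3 : (Finset.Icc 1 N).filter (fun k : ℕ => (k:ℝ) < 64 * M0 N R p)
        ⊆ Finset.Icc 1 ⌊64 * M0 N R p⌋₊ := by
      intro k hk
      rw [Finset.mem_filter, Finset.mem_Icc] at hk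
      rw [Finset.mem_Icc]
      exact ⟨hk.1.1, Nat.le_floor hk.2.le⟩
    have h4 := Finset.card_le_card h3
    rw [Nat.card_Icc, Nat.add_sub_cancel] at h4
    have h5 : ((⌊64 * M0 N R p⌋₊ : ℕ) : ℝ) ≤ 64 * M0 N R p := Nat.floor_le (by positivity)
    exact le_trans (by exact_mod_cast h4) h5
  have h6 : ∑ k ∈ Finset.Icc 1 N, 31 * M0 N R p * (1 / 2 : ℝ) ^ (k - 1)
      ≤ 31 * M0 N R p * 2 := by
    rw [← Finset.mul_sum]
    apply mul_le_mul_of_nonneg_left _ (by positivity)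
    have h7 : ∑ k ∈ Finset.Icc 1 N, (1 / 2 : ℝ) ^ (k - 1) = ∑ k ∈ range N, (1 / 2 : ℝ) ^ k := by
      rw [Finset.range_eq_Ico, Finset.sum_Ico_eq_sum_range, ← Finset.Ico_add_one_right_eq_Icc,
        Finset.sum_Ico_eq_sum_range]
      simp
    rw [h7]
    have h8 := geom_sum_eq (x := (1/2:ℝ)) (by norm_num) N
    rw [h8]
    have h9 : (0:ℝ) ≤ (1/2) ^ N := by positivity
    rw [div_le_iff_of_neg (by norm_num)]
    linarith
  linarith

/-- maximal number of hits of a path -/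
noncomputable def Hmax (A : ℕ → ℤ → Set Ω) (N R : ℕ) (ω : Ω) : ENNReal :=
  ⨆ γ : {γ : ℕ → ℤ // TV N γ ≤ R}, (hits A N γ.1 ω : ENNReal)

/-- measurable upper bound of `Hmax` -/
noncomputable def G (A : ℕ → ℤ → Set Ω) (N R : ℕ) (ω : Ω) : ENNReal :=
  ∑ k ∈ Finset.Icc 1 N, (U A N R k).indicator (fun _ => (1:ENNReal)) ω

omit [MeasurableSpace Ω] in
lemma hits_le_G (A : ℕ → ℤ → Set Ω) (N R : ℕ) (γ : ℕ → ℤ) (hγ : TV N γ ≤ R) (ω : Ω) :
    (hits A N γ ω : ENNReal) ≤ G A N R ω := by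
  classical
  have hN : hits A N γ ω ≤ N := by
    unfold hits
    calc _ ≤ (range N).card := Finset.card_filter_le _ _
      _ = N := Finset.card_range N
  unfold G
  have h1 : ∑ k ∈ Finset.Icc 1 (hits A N γ ω), (1:ENNReal)
      ≤ ∑ k ∈ Finset.Icc 1 (hits A N γ ω), (U A N R k).indicator (fun _ => (1:ENNReal)) ω := by
    apply Finset.sum_le_sum
    intro k hk
    rw [Finset.mem_Icc] at hk
    rw [Set.indicator_of_mem (cover A N R k hk.1 γ hγ ω hk.2)]
  have h2 : ∑ k ∈ Finset.Icc 1 (hits A N γ ω), (1:ENNReal) = (hits A N γ ω : ENNReal) := by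
    simp
  rw [← h2]
  refine h1.trans ?_
  apply Finset.sum_le_sum_of_subset
  exact Finset.Icc_subset_Icc_right hN

lemma G_meas (A : ℕ → ℤ → Set Ω) (hA : ∀ i x, MeasurableSet (A i x)) (N R : ℕ) :
    Measurable (G A N R) := by
  unfold G
  apply Finset.measurable_sum
  intro k _
  exact measurable_const.indicator (U_meas A hA N R k)

lemma lint_G (A : ℕ → ℤ → Set Ω) (hA : ∀ i x, MeasurableSet (A i x)) (p : ℝ) (hp : 0 ≤ p)
    (hAp : ∀ S : Finset (ℕ × ℤ), μ.real (⋂ s ∈ S, A s.1 s.2) ≤ p ^ S.card) (N R : ℕ) :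
    ∫⁻ ω, G A N R ω ∂μ ≤ ENNReal.ofReal (126 * M0 N R p) := by
  unfold G
  rw [lintegral_finsetSum _ (fun k _ => measurable_const.indicator (U_meas A hA N R k))]
  have h1 : ∀ k ∈ Finset.Icc 1 N,
      ∫⁻ ω, (U A N R k).indicator (fun _ => (1:ENNReal)) ω ∂μ
        = ENNReal.ofReal (μ.real (U A N R k)) := by
    intro k _
    rw [lintegral_indicator (U_meas A hA N R k), setLIntegral_const, one_mul,
      ofReal_measureReal (measure_ne_top μ _)]
  rw [Finset.sum_congr rfl h1, ← ENNReal.ofReal_sum_of_nonneg (fun _ _ => measureReal_nonneg)]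
  exact ENNReal.ofReal_le_ofReal (sum_U μ A p hp hAp N R)

/-- (G2) mean of the maximal number of hits -/
theorem lint_Hmax (A : ℕ → ℤ → Set Ω) (hA : ∀ i x, MeasurableSet (A i x)) (p : ℝ) (hp : 0 ≤ p)
    (hAp : ∀ S : Finset (ℕ × ℤ), μ.real (⋂ s ∈ S, A s.1 s.2) ≤ p ^ S.card) (N R : ℕ) :
    ∫⁻ ω, Hmax A N R ω ∂μ ≤ ENNReal.ofReal (126 * (N * p + Real.sqrt (N * R * p))) := by
  refine le_trans (lintegral_mono fun ω => ?_) (lint_G μ A hA p hp hAp N R)
  exact iSup_le fun γ => hits_le_G A N R γ.1 γ.2 ω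

/-- (G3) weighted form: rewards `Y` bounded by a sum of levels -/
theorem lint_reward (Y : ℕ → ℤ → Ω → ENNReal) (A : ℕ → ℕ → ℤ → Set Ω)
    (hA : ∀ l i x, MeasurableSet (A l i x)) (c : ℕ → ENNReal) (p : ℕ → ℝ) (hp : ∀ l, 0 ≤ p l)
    (hY : ∀ i x ω, Y i x ω ≤ ∑' l, c l * (A l i x).indicator (fun _ => (1:ENNReal)) ω)
    (hAp : ∀ l, ∀ S : Finset (ℕ × ℤ), μ.real (⋂ s ∈ S, A l s.1 s.2) ≤ p l ^ S.card) (N R : ℕ) :
    ∫⁻ ω, (⨆ γ : {γ : ℕ → ℤ // TV N γ ≤ R}, ∑ i ∈ range N, Y i (γ.1 i) ω) ∂μ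
      ≤ ∑' l, c l * ENNReal.ofReal (126 * (N * p l + Real.sqrt (N * R * p l))) := by
  classical
  have h1 : ∀ ω, (⨆ γ : {γ : ℕ → ℤ // TV N γ ≤ R}, ∑ i ∈ range N, Y i (γ.1 i) ω)
      ≤ ∑' l, c l * G (A l) N R ω := by
    intro ω
    apply iSup_le
    intro γ
    calc ∑ i ∈ range N, Y i (γ.1 i) ω
        ≤ ∑ i ∈ range N, ∑' l, c l * (A l i (γ.1 i)).indicator (fun _ => (1:ENNReal)) ω :=
          Finset.sum_le_sum fun i _ => hY i _ ω
      _ = ∑' l, ∑ i ∈ range N, c l * (A l i (γ.1 i)).indicator (fun _ => (1:ENNReal)) ω :=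
          (Summable.tsum_finsetSum fun _ _ => ENNReal.summable).symm
      _ = ∑' l, c l * (hits (A l) N γ.1 ω : ENNReal) := by
          congr 1; ext l
          rw [← Finset.mul_sum]
          congr 1
          unfold hits
          rw [Finset.card_filter, Nat.cast_sum]
          apply Finset.sum_congr rfl
          intro i _
          by_cases h : ω ∈ A l i (γ.1 i)
          · simp [h]
          · simp [h]
      _ ≤ ∑' l, c l * G (A l) N R ω := by
          apply ENNReal.tsum_le_tsum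
          intro l
          gcongr
          exact hits_le_G (A l) N R γ.1 γ.2 ω
  refine (lintegral_mono h1).trans ?_
  rw [lintegral_tsum fun l => ((G_meas (A l) (hA l) N R).const_mul (c l)).aemeasurable]
  apply ENNReal.tsum_le_tsum
  intro l
  rw [lintegral_const_mul _ (G_meas (A l) (hA l) N R)]
  gcongr
  exact lint_G μ (A l) (hA l) (p l) (hp l) (hAp l) N R

/-- colouring: finitely many classes, the product bound only inside each class -/
theorem lint_Hmax_colour {m : ℕ} (col : ℕ → ℤ → Fin m) (A : ℕ → ℤ → Set Ω)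
    (hA : ∀ i x, MeasurableSet (A i x)) (p : ℝ) (hp : 0 ≤ p)
    (hAp : ∀ c : Fin m, ∀ S : Finset (ℕ × ℤ), (∀ s ∈ S, col s.1 s.2 = c) →
      μ.real (⋂ s ∈ S, A s.1 s.2) ≤ p ^ S.card) (N R : ℕ) :
    ∫⁻ ω, Hmax A N R ω ∂μ ≤ m * ENNReal.ofReal (126 * (N * p + Real.sqrt (N * R * p))) := by
  classical
  let B : Fin m → ℕ → ℤ → Set Ω := fun c i x => if col i x = c then A i x else ∅
  have hB : ∀ c i x, MeasurableSet (B c i x) := by
    intro c i x
    simp only [B]
    split_ifs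
    · exact hA i x
    · exact MeasurableSet.empty
  have hBp : ∀ c, ∀ S : Finset (ℕ × ℤ), μ.real (⋂ s ∈ S, B c s.1 s.2) ≤ p ^ S.card := by
    intro c S
    by_cases hS : ∀ s ∈ S, col s.1 s.2 = c
    · have : (⋂ s ∈ S, B c s.1 s.2) = ⋂ s ∈ S, A s.1 s.2 := by
        apply Set.iInter₂_congr
        intro s hs
        simp [B, hS s hs]
      rw [this]
      exact hAp c S hS
    · push Not at hS
      obtain ⟨s, hs, hsc⟩ := hS
      have : (⋂ s ∈ S, B c s.1 s.2) = ∅ := by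
        apply Set.eq_empty_of_subset_empty
        intro ω hω
        have := Set.mem_iInter₂.mp hω s hs
        simp [B, hsc] at this
      rw [this]
      simp only [measureReal_empty]
      positivity
  have hpt : ∀ ω, Hmax A N R ω ≤ ∑ c : Fin m, G (B c) N R ω := by
    intro ω
    apply iSup_le
    intro γ
    have h1 : (hits A N γ.1 ω : ENNReal) = ∑ c : Fin m, (hits (B c) N γ.1 ω : ENNReal) := by
      rw [← Nat.cast_sum]
      congr 1
      unfold hits
      simp only [Finset.card_filter]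
      rw [Finset.sum_comm]
      apply Finset.sum_congr rfl
      intro i _
      rw [Finset.sum_eq_single (col i (γ.1 i))]
      · simp [B]
      · intro c _ hc
        simp [B, hc.symm]
      · intro h; exact absurd (Finset.mem_univ _) h
    rw [h1]
    exact Finset.sum_le_sum fun c _ => hits_le_G (B c) N R γ.1 γ.2 ω
  refine (lintegral_mono hpt).trans ?_
  rw [lintegral_finsetSum _ (fun c _ => G_meas (B c) (hB c) N R)]
  calc ∑ c : Fin m, ∫⁻ ω, G (B c) N R ω ∂μ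
      ≤ ∑ _c : Fin m, ENNReal.ofReal (126 * (N * p + Real.sqrt (N * R * p))) :=
        Finset.sum_le_sum fun c _ => lint_G μ (B c) (hB c) p hp (hBp c) N R
    _ = _ := by simp

omit [IsProbabilityMeasure μ] in
/-- independent events satisfy the product bound -/
theorem prod_bound (A : ℕ → ℤ → Set Ω) (p : ℝ)
    (hind : ProbabilityTheory.iIndepSet (fun s : ℕ × ℤ => A s.1 s.2) μ)
    (hAp : ∀ i x, μ.real (A i x) ≤ p) (S : Finset (ℕ × ℤ)) :
    μ.real (⋂ s ∈ S, A s.1 s.2) ≤ p ^ S.card := by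
  have h := hind.meas_biInter S
  unfold Measure.real
  rw [h, ENNReal.toReal_prod, ← Finset.prod_const]
  apply Finset.prod_le_prod
  · intro s _; exact ENNReal.toReal_nonneg
  · intro s _; exact hAp s.1 s.2

end Greedy70
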